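import Pool.Agent.H41N.DC.Comp

/-!
# The double coset problem in the braid group on three strands is solvable

`B3` is the braid group on three strands, given by its presentation. For every pair of finitely generated subgroups `A`, `B` there
is an algorithm which decides for words `g`, `h` whether `A g B = A h B`; there is even one algorithm for all pairs, the input of which
also contains finite lists of words that generate `A` and `B`.

Proof. (1) The product of two finitely generated subgroups of a free group is closed in the profinite topology (Niblo; a short proof is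
given: a finite piece of the coset graph of `A` is labelled by sets of vertices of a finite piece of the coset graph of `B`, and
completed to a finite action by adding vertices in such a way that every label occurs equally often). (2) This property passes to
groups with a subgroup of finite index that has it. (3) It passes to a group with a central element `z` if the quotients by
the powers `z ^ M`, `M ≥ 1`, have it: the `n` with `g z ^ n ∈ A B` form a coset of a subgroup of `ℤ`. (4) The braid group is the semidirect product
of a free group of rank two and an infinite cyclic group, and its quotients by the powers of the full twist have free subgroups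
of finite index. So the double cosets are closed in the profinite topology, and Post's theorem gives the algorithm: the
words with `g ∈ A h B` are enumerated by the presentation, the words with `g ∉ A h B` by the finite actions of the group.
-/

set_option autoImplicit false

namespace Pool.Agent.Results.MP_ae4a37_al.Solvable

/-- The relator `σ₁ σ₂ σ₁ (σ₂ σ₁ σ₂)⁻¹`. -/
def relator : FreeGroup (Fin 2) :=
  FreeGroup.of 0 * FreeGroup.of 1 * FreeGroup.of 0 * (FreeGroup.of 1 * FreeGroup.of 0 * FreeGroup.of 1)⁻¹

/-- The braid group on three strands `⟨σ₁, σ₂ | σ₁ σ₂ σ₁ = σ₂ σ₁ σ₂⟩`. -/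
abbrev B3 : Type := PresentedGroup ({relator} : Set (FreeGroup (Fin 2)))

/-- The words in the generators and their inverses: `(0, true)` is `σ₁`, `(1, true)` is `σ₂`, `(0, false)` and `(1, false)` are
their inverses. -/
abbrev Word : Type := List (Fin 2 × Bool)

/-- The element of the braid group which a word represents. -/
def eval (w : Word) : B3 := (w.map fun x => if x.2 then (PresentedGroup.of x.1 : B3) else (PresentedGroup.of x.1)⁻¹).prod

/-- The subgroup generated by the elements which the words in the list represent. -/
def generated (L : List Word) : Subgroup B3 := Subgroup.closure {g | ∃ w ∈ L, eval w = g}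

lemma eval_eq (w : Word) : eval w = Pool.Agent.H41N.DC.ev w := by
  unfold eval Pool.Agent.H41N.DC.ev
  induction w with
  | nil => rfl
  | cons x w ih =>
    rw [List.map_cons, List.prod_cons, ih]
    have h1 : (FreeGroup.mk (x :: w) : FreeGroup (Fin 2)) = FreeGroup.mk [x] * FreeGroup.mk w := by
      rw [FreeGroup.mul_mk]
      rfl
    rw [h1, map_mul]
    congr 1
    obtain ⟨i, b⟩ := x
    cases b
    · rfl
    · rfl

lemma generated_eq (L : List Word) : generated L = Pool.Agent.H41N.DC.gen L := by
  unfold generated Pool.Agent.H41N.DC.gen
  simp only [eval_eq]
  rfl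

/-- The uniform algorithm. -/
theorem uniform : ComputablePred fun q : (List Word × List Word) × (Word × Word) =>
    DoubleCoset.doubleCoset (eval q.2.1) (generated q.1.1 : Set B3) (generated q.1.2 : Set B3) =
      DoubleCoset.doubleCoset (eval q.2.2) (generated q.1.1 : Set B3) (generated q.1.2 : Set B3) := by
  refine Pool.Agent.H41N.DC.main.of_eq fun q => ?_
  unfold Pool.Agent.H41N.DC.Pos
  rw [← generated_eq, ← generated_eq, ← eval_eq, ← eval_eq]
  constructor
  · rintro ⟨a, ha, b, hb, h⟩
    exact DoubleCoset.doubleCoset_eq_of_mem (DoubleCoset.mem_doubleCoset.2 ⟨a, ha, b, hb, h⟩)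
  · intro h
    have h1 := DoubleCoset.mem_doubleCoset_self (generated q.1.1) (generated q.1.2) (eval q.2.1)
    rw [h] at h1
    obtain ⟨a, ha, b, hb, h2⟩ := DoubleCoset.mem_doubleCoset.1 h1
    exact ⟨a, ha, b, hb, h2⟩

lemma eval_surj (g : B3) : ∃ w, eval w = g := by
  obtain ⟨f, rfl⟩ := PresentedGroup.mk_surjective _ g
  exact ⟨f.toWord, by rw [eval_eq]; unfold Pool.Agent.H41N.DC.ev; rw [FreeGroup.mk_toWord]; rfl⟩

lemma exists_list (A : Subgroup B3) (hA : A.FG) : ∃ L, generated L = A := by
  rw [Subgroup.fg_iff] at hA
  obtain ⟨S, hS, hf⟩ := hA
  choose w hw using eval_surj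
  refine ⟨hf.toFinset.toList.map w, ?_⟩
  rw [← hS]
  unfold generated
  congr 1
  ext g
  constructor
  · rintro ⟨v, hv, rfl⟩
    rw [List.mem_map] at hv
    obtain ⟨x, hx, rfl⟩ := hv
    rw [hw]
    simpa using hx
  · intro hg
    exact ⟨w g, List.mem_map.2 ⟨g, by simpa using hg, rfl⟩, hw g⟩

/-- **The double coset problem in the braid group on three strands is solvable**, for every pair of finitely generated subgroups, and
uniformly in the pair. -/
theorem result :
    (∀ A B : Subgroup B3, A.FG → B.FG → ComputablePred fun p : Word × Word =>
      DoubleCoset.doubleCoset (eval p.1) (A : Set B3) (B : Set B3) = DoubleCoset.doubleCoset (eval p.2) (A : Set B3) (B : Set B3)) ∧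
    ComputablePred fun q : (List Word × List Word) × (Word × Word) =>
      DoubleCoset.doubleCoset (eval q.2.1) (generated q.1.1 : Set B3) (generated q.1.2 : Set B3) =
        DoubleCoset.doubleCoset (eval q.2.2) (generated q.1.1 : Set B3) (generated q.1.2 : Set B3) := by
  refine ⟨fun A B hA hB => ?_, uniform⟩
  obtain ⟨LA, rfl⟩ := exists_list A hA
  obtain ⟨LB, rfl⟩ := exists_list B hB
  refine ComputablePred.computable_of_manyOneReducible ?_ uniform
  exact ⟨fun p => ((LA, LB), p), (Computable.const (LA, LB)).pair Computable.id, fun p => Iff.rfl⟩

end Pool.Agent.Results.MP_ae4a37_al.Solvable
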